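import Pool.Agent.X142.AZ.HurwQ
import Pool.Agent.X255.RH.Loc
import Pool.Agent.X255.RH.Mea3

/-!
# Shifted Hurwitz zeta values and digamma values at almost all algebraic numbers, jointly for all conjugates

The number `ζ(11)` is the value at `z = 1` of the Hurwitz zeta function `ζ(11, z) = ∑_{m ≥ 0} (z + m) ^ (-11)`. Take any
finite family of functions `ζ(e_k, z + α_k)`, `e_k ≥ 2`, `α_k` complex numbers, together with digamma functions
`ψ(z + α_k)` (`e_k = 1`), such that no two members coincide and different shifts do not differ by integers. For 100% of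
the integral polynomials of degree `g`, ordered by the maximum `T` of the absolute values of the coefficients, we prove
that the values of these functions at ALL roots `z` of the polynomial which are not poles satisfy no relation whose
degree, and the degree of whose coefficient field, is at most `ω (T)`, and whose coefficients are of size at most
`T ^ ω (T)`, where `ω (T) → ∞` (the coefficients may also contain arbitrary fixed complex numbers, for instance `ζ(11)`).
We also prove lower bounds for polynomials of bounded degree in these numbers, with arbitrary complex coefficients. The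
hand-in `HurwitzFamily` (helper142) is about tuples of points of number fields of bounded degree, with coefficients in
the same field, and about the functions without shifts.

Proof: `Pool.Agent.X255.NP` and `Pool.Agent.Y890.MV` (nonstandard versions of the Bombieri-Pila method), the algebraic
independence over `ℂ(z)` of the functions (`Pool.Agent.X142.AZ`), and `Pool.Agent.X255.RH` (independence of functions of
different variables; almost no integral polynomial has close roots).
-/

set_option autoImplicit false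

open Polynomial Filter NumberField
open scoped Classical

namespace Pool.Agent.Results.MP_4f096c_nt.ConjugateArguments

/-- the Hurwitz zeta function `ζ(e, z) = ∑ (z + m) ^ (-e)`, the sum over `m ≥ 0`, for `e ≥ 2`; `ζ(e, 1) = ζ(e)` -/
noncomputable def hurwitz (e : ℕ) (z : ℂ) : ℂ := ∑' m : ℕ, ((z + m) ^ e)⁻¹

/-- `ζ(e, z)` for `e ≥ 2`, and `-ψ(z)`, `ψ` the digamma function, for `e = 1` -/
noncomputable def value (e : ℕ) (z : ℂ) : ℂ := if e = 1 then -Complex.digamma z else hurwitz e z

/-- the complement of the poles `-m - α_k`, `m ≥ 0` -/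
def Dom {n : ℕ} (α : Fin n → ℂ) : Set ℂ := {z | ∀ k, ∀ m : ℕ, z + α k ≠ -m}

/-- The pairs `(e_k, α_k)` are distinct, `e_k ≥ 1`, and the difference of different shifts is not an integer. -/
structure Admissible {n : ℕ} (e : Fin n → ℕ) (α : Fin n → ℂ) : Prop where
  pos : ∀ k, 1 ≤ e k
  inj : ∀ k l, e k = e l → α k = α l → k = l
  shift : ∀ k l, (∃ m : ℤ, α k - α l = m) → α k = α l

/-- the polynomial `a_g X ^ g + … + a_0` -/
noncomputable def poly {g : ℕ} (a : Fin (g + 1) → ℤ) : ℂ[X] := ∑ i, C (a i : ℂ) * X ^ (i : ℕ)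

/-- the roots of the polynomial in the set `V` -/
noncomputable def rootsIn (V : Set ℂ) {g : ℕ} (a : Fin (g + 1) → ℤ) : Finset ℂ :=
  (poly a).roots.toFinset.filter fun z => z ∈ V

/-- The numbers `x q`, `q ∈ Q`, satisfy no relation of degree at most `k` in each of them with coefficients
`∑ ξ b * c b`, `b < k`, where the `c b` are integers of a number field of degree at most `k`, all of whose conjugates
are of absolute value at most `T ^ k`, except the relations all of whose coefficients vanish. -/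
def Unrelated {Q : Type} [Fintype Q] [DecidableEq Q] (ξ : ℕ → ℂ) (k : ℕ) (T : ℝ) (x : Q → ℂ) : Prop :=
  ∀ (F : Type) [Field F] [NumberField F], Module.finrank ℚ F ≤ k → ∀ (io : F →+* ℂ)
    (c : (Q → Fin (k + 1)) → Fin k → 𝓞 F), (∀ l b (φ : F →+* ℂ), ‖φ (c l b : F)‖ ≤ T ^ k) →
    ∑ l, (∑ b : Fin k, ξ b * io (c l b : F)) * ∏ q, x q ^ (l q : ℕ) = 0 → ∀ l, ∑ b : Fin k, ξ b * io (c l b : F) = 0

/-- Every polynomial `P` of degree at most `k` in each of the numbers `x q`, with coefficients `∑ ξ b * c b`, `b < k`,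
where the `c b` are rational integers of absolute value at most `T ^ k`, satisfies `|P (x)| ≥ T ^ (-B) |p|` for each of
its coefficients `p`. -/
def Measure {Q : Type} [Fintype Q] [DecidableEq Q] (ξ : ℕ → ℂ) (k : ℕ) (B T : ℝ) (x : Q → ℂ) : Prop :=
  ∀ c : (Q → Fin (k + 1)) → Fin k → ℤ, (∀ l b, |(c l b : ℝ)| ≤ T ^ k) → ∀ l₀,
    T ^ (-B) * ‖∑ b : Fin k, ξ b * (c l₀ b : ℂ)‖ ≤
      ‖∑ l, (∑ b : Fin k, ξ b * (c l b : ℂ)) * ∏ q, x q ^ (l q : ℕ)‖

/-- the `a` with `|a_i| ≤ T` -/
noncomputable def box (g T : ℕ) : Finset (Fin (g + 1) → ℤ) := Fintype.piFinset fun _ => Finset.Icc (-(T : ℤ)) T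

/-- the numbers `ζ(e_k, z + α_k)` (`-ψ(z + α_k)` for `e_k = 1`), `z` all roots of `a` which are not poles -/
noncomputable def numbers {g n : ℕ} (e : Fin n → ℕ) (α : Fin n → ℂ) (a : Fin (g + 1) → ℤ)
    (q : {z // z ∈ rootsIn (Dom α) a} × Fin n) : ℂ :=
  value (e q.2) (q.1 + α q.2)

/-- `a` is of degree `g`, with simple roots, and the numbers are unrelated -/
def Good {g n : ℕ} (e : Fin n → ℕ) (α : Fin n → ℂ) (ξ : ℕ → ℂ) (k : ℕ) (T : ℝ) (a : Fin (g + 1) → ℤ) : Prop :=
  a (Fin.last g) ≠ 0 ∧ (poly a).Separable ∧ Unrelated ξ k T (numbers e α a)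

/-- `a` is of degree `g`, with simple roots, and the numbers satisfy the lower bounds -/
def GoodM {g n : ℕ} (e : Fin n → ℕ) (α : Fin n → ℂ) (ξ : ℕ → ℂ) (k : ℕ) (B T : ℝ) (a : Fin (g + 1) → ℤ) : Prop :=
  a (Fin.last g) ≠ 0 ∧ (poly a).Separable ∧ Measure ξ k B T (numbers e α a)

/-- `a` is of degree `g`, its roots are simple, of absolute value at most `R`, at distance at least `η` from each other,
and the roots in `V` are at distance at least `η` from the complement of `V` -/
def Position (V : Set ℂ) (R η : ℝ) {g : ℕ} (a : Fin (g + 1) → ℤ) : Prop :=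
  a (Fin.last g) ≠ 0 ∧ (poly a).Separable ∧ ∀ z, (poly a).eval z = 0 → ‖z‖ ≤ R ∧
    (∀ w, (poly a).eval w = 0 → w ≠ z → η ≤ ‖z - w‖) ∧ (z ∈ V → Metric.ball z η ⊆ V)

theorem dom_eq {n : ℕ} (α : Fin n → ℂ) : Dom α = Pool.Agent.X142.AZ.OmS α := by
  ext z
  exact (Pool.Agent.X142.AZ.mem_OmS).symm

theorem poles_finite {n : ℕ} (α : Fin n → ℂ) (R : ℝ) : ((Dom α)ᶜ ∩ Metric.closedBall 0 R).Finite := by
  have h1 : (Dom α)ᶜ ∩ Metric.closedBall 0 R ⊆
      ⋃ k : Fin n, (fun m : ℕ => -(m : ℂ) - α k) '' {m : ℕ | (m : ℝ) ≤ R + ‖α k‖} := by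
    rintro z ⟨hz, hzR⟩
    have h2 : ¬ ∀ k, ∀ m : ℕ, z + α k ≠ -m := hz
    push Not at h2
    obtain ⟨k, m, hm⟩ := h2
    refine Set.mem_iUnion.2 ⟨k, m, ?_, ?_⟩
    · have h3 : ‖(m : ℂ)‖ ≤ ‖z‖ + ‖α k‖ := by
        have h4 : (m : ℂ) = -(z + α k) := by rw [hm, neg_neg]
        rw [h4, norm_neg]
        exact norm_add_le _ _
      rw [Complex.norm_natCast] at h3
      have h5 : ‖z‖ ≤ R := by simpa using hzR
      show (m : ℝ) ≤ R + ‖α k‖
      linarith
    · show -(m : ℂ) - α k = z
      rw [← hm]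
      ring
  refine Set.Finite.subset (Set.finite_iUnion fun k => Set.Finite.image _ ?_) h1
  exact (Set.finite_Iic ⌊R + ‖α k‖⌋₊).subset fun m hm => Nat.le_floor hm

theorem value_eq (e : ℕ) : value e = Pool.Agent.X142.AZ.hd e := rfl

/-- **Theorem.** Let `g ≥ 1` and let `(e, α)` be admissible.
(1) For every sequence `ξ` there is a monotone `ω`, `ω(T) → ∞`, such that the proportion of the polynomials with
`|a_i| ≤ T` which are not `Good` with `k = ω(T)` is at most `1 / ω(T)`.
(2) For every `k ≥ 1` there are `B` and `T₀` such that for `T ≥ T₀` and all `ξ` (which may depend on `T`) the proportion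
of the polynomials with `|a_i| ≤ T` which are not `GoodM` is at most `1 / k`.
(3) For fixed `k ≥ 1`, `R`, `η > 0` and `ε > 0` there are `B`, `C` such that for all `ξ` the lower bounds
`Measure ξ k B T` hold for all but `C T ^ (g + ε)` of the polynomials with `|a_i| ≤ T` whose roots are in the compact
position `Position (Dom α) R η` (there are about `(2 T) ^ (g + 1)` polynomials). -/
theorem result (g n : ℕ) (hg : 0 < g) (e : Fin n → ℕ) (α : Fin n → ℂ) (hα : Admissible e α) :
    (∀ ξ : ℕ → ℂ, ∃ ω : ℕ → ℕ, Tendsto ω atTop atTop ∧ Monotone ω ∧ ∀ T,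
      ω T * ((box g T).filter fun a => ¬ Good e α ξ (ω T) T a).card ≤ (box g T).card) ∧
    (∀ k : ℕ, 1 ≤ k → ∃ (B : ℝ) (T₀ : ℕ), ∀ T : ℕ, T₀ ≤ T → ∀ ξ : ℕ → ℂ,
      (k : ℝ) * ((box g T).filter fun a => ¬ GoodM e α ξ k B T a).card ≤ (box g T).card) ∧
    (∀ (k : ℕ) (R η ε : ℝ), 1 ≤ k → 0 < η → 0 < ε → ∃ B C : ℝ, ∀ T : ℕ, 1 ≤ T → ∀ ξ : ℕ → ℂ,
      (((box g T).filter fun a => Position (Dom α) R η a ∧ ¬ Measure ξ k B T (numbers e α a)).card : ℝ) ≤
        C * (T : ℝ) ^ ((g : ℝ) + ε)) := by
  have hD : (Dom α)ᶜᶜ = Dom α := compl_compl _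
  have hcl : IsOpen (Dom α) := by
    rw [← hD, isOpen_compl_iff, ← isSeqClosed_iff_isClosed]
    intro x y hx hxy
    obtain ⟨R, hR⟩ := (hxy.norm.bddAbove_range)
    have hfin := poles_finite α R
    refine (hfin.isClosed.mem_of_tendsto hxy (Eventually.of_forall fun i => ⟨hx i, ?_⟩)).1
    rw [mem_closedBall_zero_iff]
    exact hR ⟨i, rfl⟩
  have hop : IsOpen (Dom α) := hcl
  have hpre : IsPreconnected (Dom α) := by
    rw [dom_eq]
    exact Pool.Agent.X142.AZ.OmS_pc α
  have hne : (Dom α).Nonempty := by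
    by_contra h
    rw [Set.not_nonempty_iff_eq_empty] at h
    have h1 := poles_finite α 1
    rw [h, Set.compl_empty, Set.univ_inter] at h1
    have h2 : (Metric.closedBall (0 : ℂ) 1).Infinite := by
      refine Set.Infinite.mono Metric.ball_subset_closedBall ?_
      exact infinite_of_mem_nhds (0 : ℂ) (Metric.ball_mem_nhds _ one_pos)
    exact h2 h1
  have htame : Pool.Agent.X255.RH.Tame (Dom α) (Dom α) := by
    have h1 := Pool.Agent.X255.RH.tame_of_discrete (S := (Dom α)ᶜ) (poles_finite α)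
    rwa [compl_compl] at h1
  have han : ∀ k : Fin n, AnalyticOnNhd ℂ (fun z => value (e k) (z + α k)) (Dom α) := by
    intro k z hz
    have h1 : AnalyticAt ℂ (fun z : ℂ => z + α k) z := analyticAt_id.add analyticAt_const
    exact (Pool.Agent.X142.AZ.hd_analytic (hα.pos k) (hz k)).comp_of_eq h1 rfl
  have hind : Pool.Agent.X255.RH.Indep (Dom α) (fun (k : Fin n) z => value (e k) (z + α k)) :=
    Pool.Agent.X255.RH.indep_of_loc hop hne fun t ht =>
      Pool.Agent.X142.AZ.locIndS' e α hα.inj hα.shift hα.pos ht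
  refine ⟨fun ξ => ?_, fun k hk => ?_, fun k R η ε hk hη hε => ?_⟩
  · exact Pool.Agent.X255.RH.main_all (g := g) hg hpre hop (fun _ => (Dom α)) (fun _ => htame) han hind ξ
  · exact Pool.Agent.X255.RH.mea_all (g := g) hg hpre hop htame han hind k hk
  · exact Pool.Agent.X255.RH.mea_eps (g := g) hg hpre hop han hind (Dom α) k R η ε hη hε

end Pool.Agent.Results.MP_4f096c_nt.ConjugateArguments
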