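import Mathlib
import Pool.Agent.X142.AZ.HurwShift
import Pool.Agent.X142.AZ.FewMv

/-!
# `ζ(11)`: the Hurwitz zeta values at almost all rational arguments

The numbers `ζ(5)`, `ζ(7)`, `ζ(9)`, `ζ(11)`, at least one of which is irrational by Zudilin's theorem, are
the values at `x = 1` of the Hurwitz zeta functions `ζ(k, x) = ∑_{n ≥ 0} (n + x)^(-k)`. We prove that for
all but very few rational numbers `x` the four numbers `ζ(5, x)`, `ζ(7, x)`, `ζ(9, x)`, `ζ(11, x)`, also
divided by arbitrary numbers, satisfy no polynomial relation of bounded degree and height at most a power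
of the height of `x`, not even approximately; and that for almost all tuples of elements `s_l` of a
number field the numbers `ψ(s_l)` (digamma), `ζ(2, s_l)`, …, `ζ(K, s_l)` satisfy no polynomial relation of
bounded complexity, even approximately. The main new point is the algebraic independence of these
functions over `ℂ(z)`.
-/

set_option autoImplicit false

open NumberField

namespace Pool.Agent.Results.MP_4f096c_nt.HurwitzFamily

/-- The Hurwitz zeta value `ζ(k, z) = ∑_{n ≥ 0} 1 / (z + n) ^ k`; `ζ(k, 1) = ζ(k)`. -/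
noncomputable def hurwitz (k : ℕ) (z : ℂ) : ℂ := ∑' n : ℕ, ((z + n) ^ k)⁻¹

/-- The four numbers `ζ(5, z)`, `ζ(7, z)`, `ζ(9, z)`, `ζ(11, z)`. -/
noncomputable def four (z : ℂ) : Fin 4 → ℂ := ![hurwitz 5 z, hurwitz 7 z, hurwitz 9 z, hurwitz 11 z]

/-- `-ψ(z)` for `k = 0`, where `ψ = Γ' / Γ` is the digamma function, and `ζ(k + 1, z)` for `k ≥ 1`. -/
noncomputable def value (k : ℕ) (z : ℂ) : ℂ := if k = 0 then -Complex.digamma z else hurwitz (k + 1) z

/-- `x = a / c` with integers `a`, `c` of the number field `F`, all of whose conjugates have absolute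
value at most `T`. -/
def HeightLe (F : Type) [Field F] [NumberField F] (T : ℝ) (x : F) : Prop :=
  ∃ a c : 𝓞 F, c ≠ 0 ∧ (∀ φ : F →+* ℂ, ‖φ a‖ ≤ T ∧ ‖φ c‖ ≤ T) ∧ x = a / c

/-- The `N`-tuples `s` of elements of the finite set `X` for which there is a polynomial `P` in `N K`
variables, of degree at most `d` in each of them, with coefficients of the form `∑ ξ_i ι(c_i)`, where
the `c_i` are integers of `F` all of whose conjugates have absolute value at most `T ^ A`, such that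
the value of `P` at the numbers `value k (s_l)`, `k < K`, `l < N`, is at most `T ^ (-B)` times the
absolute value of some nonzero coefficient of `P`. -/
def Exceptional {g : ℕ} (K N d : ℕ) (F : Type) [Field F] [NumberField F] (ι : F →+* ℂ) (ξ : Fin g → ℂ)
    (X : Finset F) (A B T : ℝ) : Set (Fin N → F) :=
  {s | (∀ l, s l ∈ X) ∧ ∃ P : MvPolynomial (Fin N × Fin K) ℂ, (∀ x, P.degreeOf x ≤ d) ∧
    (∀ u, ∃ c : Fin g → 𝓞 F, (∀ i (φ : F →+* ℂ), ‖φ (c i)‖ ≤ T ^ A) ∧ P.coeff u = ∑ i, ξ i * ι (c i)) ∧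
    ∃ u₀, P.coeff u₀ ≠ 0 ∧
      ‖MvPolynomial.aeval (fun x : Fin N × Fin K => value x.2 (ι (s x.1))) P‖ ≤
        T ^ (-B) * ‖P.coeff u₀‖}

lemma value_eq (k : ℕ) : value k = Pool.Agent.X142.AZ.hd (k + 1) := by
  funext z
  unfold value Pool.Agent.X142.AZ.hd
  by_cases h : k = 0
  · rw [if_pos h, if_pos (by omega)]
  · rw [if_neg h, if_neg (by omega)]
    rfl

lemma value_locInd (K : ℕ) {z : ℂ} (hz : ∀ n : ℕ, z ≠ -n) :
    Pool.Agent.Y124.LocInd (fun k : Fin K => value k) z := by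
  have h := Pool.Agent.X142.AZ.locIndS (κ := Fin K) MonomialOrder.lex (fun k => (k : ℕ) + 1) (fun _ => 0)
    (fun k l h _ => Fin.ext (by simpa using h)) (fun _ _ _ => rfl) (fun k => by omega) (z := z)
    (fun _ n => by rw [add_zero]; exact hz n)
  simp only [add_zero] at h
  have h2 : (fun k : Fin K => value k) = fun k : Fin K => Pool.Agent.X142.AZ.hd ((k : ℕ) + 1) := by
    funext k
    exact value_eq k
  rw [h2]
  exact h

/-- Let `L` be a compact set of complex numbers without the points `0, -1, -2, …`; let `A`, `ε > 0` be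
real.
(1) For all `m` and `c` there are `B`, `C`, `T₀` such that for all `T ≥ T₀` and all complex numbers
`ξ_0, …, ξ_3 ≠ 0` of absolute value at most `T ^ c` (for instance `1`) there are at most `C T ^ ε` rational
numbers `x` in `L` with numerator and denominator at most `T` in absolute value such that
`|Q(y_0 / ξ_0, …, y_3 / ξ_3)| ≤ T ^ (-B)` for some nonzero polynomial `Q` with integer coefficients of
absolute value at most `T ^ A`, of degree at most `m` in each of the four variables, where `y_0, …, y_3` are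
the numbers `ζ(5, x)`, `ζ(7, x)`, `ζ(9, x)`, `ζ(11, x)`.
(2) For all `m`, `K`, `N`, `g`, `d` there are `B`, `C`, `T₀` such that for every number field `F` of
degree at most `m`, every embedding `ι`, all complex numbers `ξ_1, …, ξ_g`, all `T ≥ T₀` and every finite
set `X` of elements of `F` in `L` of height at most `T` there are at most `C T ^ ε |X| ^ (N - 1)`
exceptional `N`-tuples of elements of `X`. -/
theorem result (L : Set ℂ) (hL : IsCompact L) (hL0 : ∀ z ∈ L, ∀ n : ℕ, z ≠ -n) (A ε : ℝ) (hε : 0 < ε) :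
    (∀ (m : ℕ) (c : ℝ), ∃ B C T₀ : ℝ, ∀ T : ℝ, T₀ ≤ T → ∀ ξ : Fin 4 → ℂ, (∀ i, ξ i ≠ 0) →
      (∀ i, ‖ξ i‖ ≤ T ^ c) →
      (({x : ℚ | (x : ℂ) ∈ L ∧ |(x.num : ℝ)| ≤ T ∧ (x.den : ℝ) ≤ T ∧
        ∃ Q : MvPolynomial (Fin 4) ℤ, Q ≠ 0 ∧ (∀ i, Q.degreeOf i ≤ m) ∧
          (∀ s, |((Q.coeff s : ℤ) : ℝ)| ≤ T ^ A) ∧
          ‖MvPolynomial.aeval (fun i => four x i / ξ i) Q‖ ≤ T ^ (-B)}.ncard : ℕ) : ℝ) ≤ C * T ^ ε) ∧
    ∀ m K N g d : ℕ, ∃ B C T₀ : ℝ,
      ∀ (F : Type) [Field F] [NumberField F], Module.finrank ℚ F ≤ m → ∀ (ι : F →+* ℂ) (ξ : Fin g → ℂ) (T : ℝ),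
        T₀ ≤ T → ∀ X : Finset F, (∀ x ∈ X, ι x ∈ L ∧ HeightLe F T x) →
          ((Exceptional K N d F ι ξ X A B T).ncard : ℝ) ≤ C * T ^ ε * (X.card : ℝ) ^ (N - 1) := by
  classical
  refine ⟨fun m c => ?_, fun m K N g d => ?_⟩
  · obtain ⟨B, C, T₀, hT₀, H⟩ := Pool.Agent.X142.AZ.fewMv
      (fun k : Fin 4 => Pool.Agent.X142.AZ.hz (![5, 7, 9, 11] k)) L hL
      (fun y z hz => Pool.Agent.X142.AZ.hz_analytic (by fin_cases y <;> simp) (hL0 z hz))
      (fun z hz => Pool.Agent.X142.AZ.locIndH MonomialOrder.lex (![5, 7, 9, 11] : Fin 4 → ℕ)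
        (by decide) (by decide) (hL0 z hz)) m A c ε hε
    refine ⟨B, C, T₀, fun T hT ξ hξ0 hξ => ?_⟩
    have h1 := H T hT ξ hξ0 hξ
    have h2 : ∀ (x : ℚ) (i : Fin 4), four x i = Pool.Agent.X142.AZ.hz ((![5, 7, 9, 11] : Fin 4 → ℕ) i) x := by
      intro x i
      fin_cases i <;> rfl
    simp only [h2]
    exact h1
  · obtain ⟨B, C, T₀, -, -, H⟩ := Pool.Agent.Y771.RP.mainS m N g d
      (fun k : Fin K => value k) L hL
      (fun y z hz => by
        rw [value_eq]
        exact Pool.Agent.X142.AZ.hd_analytic (by omega) (hL0 z hz))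
      (fun z hz => value_locInd K (hL0 z hz)) A ε hε
    refine ⟨B, C, T₀, fun F _ _ hF ι ξ T hT X hX => ?_⟩
    have h1 := H F hF ι ξ T hT X (fun x hx => ⟨(hX x hx).1, (hX x hx).2⟩)
    refine le_trans (le_of_eq ?_) h1
    congr 2
    ext s
    constructor
    · rintro ⟨hX', P, hP1, hP2, u₀, hu₀, hu⟩
      exact ⟨⟨fun j => ⟨(hX _ (hX' j)).1, (hX _ (hX' j)).2⟩, P, hP1, hP2, u₀, hu₀, hu⟩, hX'⟩
    · rintro ⟨⟨-, P, hP1, hP2, u₀, hu₀, hu⟩, hX'⟩
      exact ⟨hX', P, hP1, hP2, u₀, hu₀, hu⟩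

end Pool.Agent.Results.MP_4f096c_nt.HurwitzFamily
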