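import Pool.Agent.Results.MP_4f096c_nt.HurwitzFamily
import Pool.Agent.X174.HurwTup

/-!
# `ζ(11)`: Hurwitz zeta values at ALL simultaneous approximations of `n` numbers

The number `ζ(11)` is the value `ζ(11, 1)` of `ζ(e, z) = ∑_{k ≥ 0} (k + z)^(-e)`. For each `j ≤ n` let `(e_ji, α_ji)` be
different pairs, `e_ji ≥ 1` and `α_ji ∈ ℂ` without nonzero integral differences, for instance `α_ji = 0` and
`e_j = (5, 7, 9, 11)`; let `h_ji(z) = ζ(e_ji, z + α_ji)` if `e_ji ≥ 2` and `-ψ(z + α_ji)` if `e_ji = 1`. For every `ω > 0`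
there is ONE set `E ⊂ ℂ^n` of Hausdorff dimension at most `2 m (n - 1) / ω` such that for all `x ∈ ℂ^n` outside `E` (without
poles), all number fields `F ⊂ ℂ` of degree at most `m`, all `d` and `A` there are `B` and `T₁` such that for all `T ≥ T₁` and
ALL simultaneous approximations `t ∈ F^n` of `x`, of height at most `T`, with `|t_j - x_j| ≤ T ^ (-ω)` for all `j`, the
numbers `h_ji(t_j)`, all `j` and `i` together, satisfy no relation of degree at most `d` with coefficients which are
polynomials of degree at most `d` in the `u_jk(t_j) / w_j(t_j)` and in given complex numbers `ξ_i`, with coefficients in `F`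
of height at most `T ^ A`, not even up to `T ^ (-B)`. In particular (`F = ℚ`) for all integral polynomials `P ≠ 0` of degree
at most `d` in each variable and height at most `T ^ A` the value of `P` at these numbers has absolute value greater than
`T ^ (-B)`; so `ζ(11, t)` is not a rational number of height at most `T ^ A` if `t` is rational of height at most `T` and
`|t - x| ≤ T ^ (-ω)`. For `ω > 2 m (n - 1) / n` almost all `x ∈ ℝ^n` are outside `E`; for `n = 1` the set `E` has dimension
`0`. Some exceptions are unavoidable for `n ≥ 2`: `x_1 = x_2` and `t_1 = t_2`.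

The functions and their independence are those of `HurwitzFamily`, which counts the exceptional rational `x`.
-/

set_option autoImplicit false

open MeasureTheory NumberField

namespace Pool.Agent.Results.MP_4f096c_nt.SimultaneousApproximations

open Pool.Agent.X39.Near (Size)
open Pool.Agent.X174.NearTup (DependentT)
open HurwitzFamily (hurwitz)

/-- The functions `ζ(e_i, z + α_i)`, to be replaced by `-ψ(z + α_i)` if `e_i = 1`, `ψ` being the digamma function. -/
noncomputable def value {r : ℕ} (e : Fin r → ℕ) (α : Fin r → ℂ) (i : Fin r) (z : ℂ) : ℂ :=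
  if e i = 1 then -Complex.digamma (z + α i) else hurwitz (e i) (z + α i)

/-- The complex numbers `z` for which no `z + α_i` is one of the poles `0, -1, -2, …`. -/
def domain {r : ℕ} (α : Fin r → ℂ) : Set ℂ := {z | ∀ (i : Fin r) (k : ℕ), z + α i ≠ -k}

/-- The pairs `(e_i, α_i)` are different, `e_i ≥ 1`, and different `α_i` do not differ by integers. -/
def Admissible {r : ℕ} (e : Fin r → ℕ) (α : Fin r → ℂ) : Prop :=
  (∀ i, 1 ≤ e i) ∧ (∀ i j, e i = e j → α i = α j → i = j) ∧ ∀ i j, (∃ k : ℤ, α i - α j = k) → α i = α j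

theorem value_eq {r : ℕ} (e : Fin r → ℕ) (α : Fin r → ℂ) :
    value e α = fun i z => Pool.Agent.X142.AZ.hd (e i) (z + α i) := rfl

/-- **Theorem.** Let `n ≥ 1`, `m` be natural numbers; for each `j < n` let `(e_ji, α_ji)`, `i < r`, be admissible and
`u_jk`, `w_j` complex polynomials, `w_j` without zeros on the `domain`; let `ξ_1, …, ξ_g` be complex numbers and `ω > 0`.
There is a set `E ⊂ ℂ^n` of Hausdorff dimension at most `2 m (n - 1) / ω`, which contains almost no real point if
`2 m (n - 1) < n ω`, such that for all `x` outside `E` with `x_j` in the domains: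
(1) for all number fields `F` of degree at most `m` with an embedding `ι` in `ℂ` and all `d`, `A` there are `B`, `T₁` such
that for all `T ≥ T₁` and all `t ∈ F^n`, quotients of integers with conjugates at most `T`, with `|ι t_j - x_j| ≤ T ^ (-ω)`
for all `j`, the values of these functions at `t` are not dependent;
(2) if `m ≥ 1`, for all `d`, `A` there are `B`, `T₁` such that for all `T ≥ T₁`, all rational `t_j` with numerator and
denominator at most `T` and `|t_j - x_j| ≤ T ^ (-ω)` for all `j`, and all nonzero integral polynomials `P` of degree at most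
`d` in each variable with coefficients at most `T ^ A`, the value of `P` at these numbers has absolute value greater than
`T ^ (-B)`. -/
theorem result {n r q g : ℕ} (hn : 1 ≤ n) (m : ℕ) (e : Fin n → Fin r → ℕ) (α : Fin n → Fin r → ℂ)
    (he : ∀ j, Admissible (e j) (α j)) (u : Fin n → Fin q → Polynomial ℂ) (w : Fin n → Polynomial ℂ)
    (hw : ∀ j, ∀ t ∈ domain (α j), (w j).eval t ≠ 0) (ξ : Fin g → ℂ) (ω : ℝ) (hω : 0 < ω) :
    ∃ E : Set (Fin n → ℂ), dimH E ≤ ENNReal.ofReal (2 * m * ((n : ℝ) - 1) / ω) ∧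
      (2 * m * ((n : ℝ) - 1) < n * ω → ∀ᵐ x : Fin n → ℝ, (fun j => (x j : ℂ)) ∉ E) ∧
      ∀ x : Fin n → ℂ, (∀ j, x j ∈ domain (α j)) → x ∉ E →
        (∀ (F : Type) [Field F] [NumberField F], Module.finrank ℚ F ≤ m → ∀ (ι : F →+* ℂ) (d A : ℕ),
          ∃ B T₁ : ℝ, ∀ T : ℝ, T₁ ≤ T → ∀ t : Fin n → F, (∀ j, Size F T (t j)) →
            (∀ j, ‖ι (t j) - x j‖ ≤ T ^ (-ω)) → ¬ DependentT (fun j => value (e j) (α j)) u w ξ F ι d A B T t) ∧
        (1 ≤ m → ∀ d A : ℕ, ∃ B T₁ : ℝ, ∀ T : ℝ, T₁ ≤ T → ∀ t : Fin n → ℚ, (∀ j, |((t j).num : ℝ)| ≤ T) →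
          (∀ j, ((t j).den : ℝ) ≤ T) → (∀ j, ‖((t j : ℚ) : ℂ) - x j‖ ≤ T ^ (-ω)) →
            ∀ P : MvPolynomial (Fin n × Fin r) ℤ, P ≠ 0 → (∀ y, P.degreeOf y ≤ d) →
              (∀ s, |((P.coeff s : ℤ) : ℝ)| ≤ T ^ A) →
                T ^ (-B) < ‖MvPolynomial.aeval (fun y => value (e y.1) (α y.1) y.2 ((t y.1 : ℚ) : ℂ)) P‖) := by
  obtain ⟨E, h1, h2, h3⟩ := Pool.Agent.X174.NearTup.masterTup hn m (fun j => domain (α j))
    (fun j => Pool.Agent.X174.NearTup.isOpen_shift (α j)) (fun j => value (e j) (α j))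
    (fun j i t ht => by
      rw [value_eq]
      have h1 : AnalyticAt ℂ (fun z : ℂ => z + α j i) t := analyticAt_id.add analyticAt_const
      exact (Pool.Agent.X142.AZ.hd_analytic ((he j).1 i) (ht i)).comp_of_eq h1 rfl)
    (fun j t ht => by
      rw [value_eq]
      exact Pool.Agent.X142.AZ.locIndS MonomialOrder.lex (e j) (α j) (he j).2.1 (he j).2.2 (he j).1 ht)
    u w hw ξ hω
  exact ⟨E, h1, h2, fun x hx hxE => ⟨h3 x hx hxE, fun hm d A =>
    Pool.Agent.X174.NearTup.poly_of hm (h3 x hx hxE) d A⟩⟩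

end Pool.Agent.Results.MP_4f096c_nt.SimultaneousApproximations
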